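import Pool.Agent.Lib.helper10.Occ3
import Pool.Agent.Lib.helper10.Dig

namespace Pool.Agent.Results.MP_f73e8c_lc.NPHard

open Pool.Agent.Cx Pool.Agent.Cx.Oc Pool.Agent.Cx.Dg List

/-- the digraph `M` has a plane drawing with straight edges -/
def Planar (M : List (List Bool)) : Prop :=
  ∃ p : Fin M.length → ℝ × ℝ, p.Injective ∧
    (∀ a b v : Fin M.length, Entry M a b → p v ∉ openSegment ℝ (p a) (p b)) ∧
    ∀ a b c d : Fin M.length, Entry M a b → Entry M c d → s(a, b) ≠ s(c, d) →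
      Disjoint (openSegment ℝ (p a) (p b)) (openSegment ℝ (p c) (p d))

/-- `P` is the vertex sequence of a directed path from `r` to `s` -/
def IsPath (M : List (List Bool)) (r s : ℕ) (P : List ℕ) : Prop :=
  P.Nodup ∧ P.head? = some r ∧ P.getLast? = some s ∧ P.IsChain (Entry M)

/-- solvable instances `(D, T, F)` whose disjointness graph has maximum degree at most `c` -/
def PDP (c : ℕ) (z : List (List Bool) × List (ℕ × ℕ) × List (List Bool)) : Prop :=
  IsDi z.1 ∧ Planar z.1 ∧ (∀ t ∈ z.2.1, t.1 < z.1.length ∧ t.2 < z.1.length) ∧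
  IsGraph z.2.2 ∧ z.2.2.length = z.2.1.length ∧ (∀ i, ((graphOf z.2.2).neighborSet i).ncard ≤ c) ∧
  ∃ P : ℕ → List ℕ, (∀ i, ∀ t ∈ z.2.1[i]?, IsPath z.1 t.1 t.2 (P i)) ∧
    ∀ i j, Entry z.2.2 i j → (P i).Disjoint (P j)

def st (p q : ℕ × ℕ) : Prop := (q.1 = p.1 + 1 ∧ q.2 = p.2) ∨ (q.1 = p.1 ∧ q.2 = p.2 + 1)
instance : DecidableRel st := fun _ _ => by unfold st; infer_instance
def grid (W : ℕ) : List (List Bool) :=
  mat (range (W * W)) fun a b => decide (st (a / W, a % W) (b / W, b % W))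

lemma ent_grid {W a b : ℕ} : Entry (grid W) a b ↔ a < W * W ∧ b < W * W ∧ st (a / W, a % W) (b / W, b % W) := by
  simp [grid, Entry, mat_get, -getD_eq_getElem?_getD]; tauto

lemma os {x y : ℕ × ℕ} (h : st x y) {z : ℝ × ℝ} (e : z ∈ openSegment ℝ ((x.1 : ℝ), (x.2 : ℝ)) (y.1, y.2)) :
    (y.1 = x.1 + 1 ∧ y.2 = x.2 ∧ x.1 < z.1 ∧ z.1 < x.1 + 1 ∧ z.2 = x.2) ∨
      (y.1 = x.1 ∧ y.2 = x.2 + 1 ∧ x.2 < z.2 ∧ z.2 < x.2 + 1 ∧ z.1 = x.1) := by
  obtain ⟨a, b, p, q, r, rfl⟩ := e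
  obtain rfl : a = 1 - b := by linarith
  refine h.imp (fun ⟨c, d⟩ => ⟨c, d, ?_⟩) fun ⟨c, d⟩ => ⟨c, d, ?_⟩ <;>
  simp only [c, d, Prod.smul_mk, Prod.mk_add_mk, smul_eq_mul] <;> push_cast <;>
  refine ⟨?_, ?_, ?_⟩ <;> linarith

lemma planar (W : ℕ) : IsDi (grid W) ∧ Planar (grid W) := by
  have ij : ∀ a b : Fin (grid W).length, a.1 / W = b.1 / W → a.1 % W = b.1 % W → a = b := fun a b p q =>
    Fin.ext (by rw [← Nat.div_add_mod a W, p, q, Nat.div_add_mod])
  have k : ∀ a b : ℕ, (a : ℝ) < b → (b : ℝ) < a + 1 → False := fun a b p q => by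
    norm_cast at p q; omega
  have k2 : ∀ (a b : ℕ) (t : ℝ), a < t → t < a + 1 → b < t → t < b + 1 → a = b := fun a b t p q r s => by
    have : (a : ℝ) < b + 1 := by linarith
    have : (b : ℝ) < a + 1 := by linarith
    norm_cast at *; omega
  refine ⟨⟨mat_row _ _, fun i h => ?_⟩, fun a => ((a.1 / W : ℕ), (a.1 % W : ℕ)), fun a b e => ?_,
    fun a b v e h => ?_, fun a b c d e e' n => Set.disjoint_left.2 fun z h h' => n ?_⟩
  · have := (ent_grid.1 h).2.2; unfold st at this; omega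
  · simp only [Prod.mk.injEq, Nat.cast_inj] at e; exact ij _ _ e.1 e.2
  · rcases os (ent_grid.1 e).2.2 h with ⟨-, -, p, q, -⟩ | ⟨-, -, p, q, -⟩ <;> exact k _ _ p q
  · rcases os (ent_grid.1 e).2.2 h with ⟨p1, p2, p, q, r⟩ | ⟨p1, p2, p, q, r⟩ <;>
    rcases os (ent_grid.1 e').2.2 h' with ⟨q1, q2, p', q', r'⟩ | ⟨q1, q2, p', q', r'⟩
    · have := k2 _ _ _ p q p' q'
      have := Nat.cast_injective (r.symm.trans r')
      rw [ij a c (by omega) (by omega), ij b d (by omega) (by omega)]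
    · exact (k _ _ (r' ▸ p) (r' ▸ q)).elim
    · exact (k _ _ (r' ▸ p) (r' ▸ q)).elim
    · have := k2 _ _ _ p q p' q'
      have := Nat.cast_injective (r.symm.trans r')
      rw [ij a c (by omega) (by omega), ij b d (by omega) (by omega)]

lemma cross {P : List (ℕ × ℕ)} {a b : ℕ × ℕ} (h : IsChain st P) (h1 : P.head? = some a)
    (h2 : P.getLast? = some b) : a.1 ≤ b.1 ∧ a.2 ≤ b.2 ∧ ∀ S, a.1 + a.2 ≤ S → S ≤ b.1 + b.2 →
      ∃ v ∈ P, v.1 + v.2 = S ∧ a.1 ≤ v.1 ∧ v.1 ≤ b.1 := by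
  induction P generalizing a with
  | nil => simp at h1
  | cons c P ih =>
    obtain rfl : c = a := by simpa using h1
    cases P with
    | nil =>
      obtain rfl : c = b := by simpa using h2
      exact ⟨le_rfl, le_rfl, fun S p q => ⟨c, by simp, by omega⟩⟩
    | cons d P =>
      rw [isChain_cons_cons] at h
      obtain ⟨p, q, r⟩ := ih h.2 rfl (by simpa using h2)
      have := h.1
      unfold st at this
      refine ⟨by omega, by omega, fun S x y => ?_⟩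
      by_cases e : c.1 + c.2 = S
      · exact ⟨c, by simp, by omega⟩
      · obtain ⟨v, v1, v2⟩ := r S (by omega) y
        exact ⟨v, mem_cons_of_mem _ v1, by omega⟩

abbrev Id := ℕ × ℕ × ℕ

def gn (φ : F) : ℕ := φ.length + 3 * φ.length * (3 * φ.length)
def ok (φ : F) (x : Id) : Prop := (x.1 = 0 ∧ x.2.1 < 3 * φ.length ∧ x.2.2 < 6 * gn φ + 1) ∨
  (x.1 = 1 ∧ x.2.1 < gn φ ∧ x.2.2 = 0) ∨ (x.1 = 2 ∧ x.2.1 < gn φ ∧ x.2.2 < 3)
def tc (φ : F) (g o k : ℕ) : Prop := (g < φ.length ∧ o / 3 = g ∧ k = 6 * g + 2 * (o % 3) + 2) ∨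
  (φ.length ≤ g ∧ cf φ ((g - φ.length) / (3 * φ.length)) ((g - φ.length) % (3 * φ.length)) ∧
    ((o = (g - φ.length) / (3 * φ.length) ∧ k = 6 * g) ∨
      (o = (g - φ.length) % (3 * φ.length) ∧ (k = 6 * g + 2 ∨ k = 6 * g + 4))))
def fd (φ : F) (x y : Id) : Prop := (x.1 = 0 ∧ y.1 = 0 ∧ x.2.1 = y.2.1 ∧ y.2.2 = x.2.2 + 1) ∨
  (x.1 = 1 ∧ y.1 = 2 ∧ x.2.1 = y.2.1) ∨ (x.1 = 1 ∧ y.1 = 0 ∧ tc φ x.2.1 y.2.1 y.2.2)
def fr (φ : F) (x y : Id) : Prop := fd φ x y ∨ fd φ y x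
instance (φ : F) : DecidablePred (ok φ) := fun _ => by unfold ok; infer_instance
instance (φ : F) : DecidableRel (fd φ) := fun _ _ => by unfold fd tc; infer_instance
instance (φ : F) : DecidableRel (fr φ) := fun _ _ => by unfold fr; infer_instance
def ee (φ : F) (g : ℕ) : ℕ := if g < φ.length then 1 else 0
def tm (φ : F) (x : Id) : (ℕ × ℕ) × ℕ × ℕ :=
  if x.1 = 0 then ((x.2.2, 6 * gn φ - x.2.2), x.2.2 + 1, 6 * gn φ + 1 - x.2.2) else
  if x.1 = 1 then ((6 * x.2.1 + 1, 6 * gn φ - 6 * x.2.1 - 5), 6 * x.2.1 + 6, 6 * gn φ - 6 * x.2.1) else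
    ((6 * x.2.1 + 2 + 2 * x.2.2 - ee φ x.2.1, 6 * gn φ + 1 - (6 * x.2.1 + 2 + 2 * x.2.2 - ee φ x.2.1)),
      6 * x.2.1 + 2 + 2 * x.2.2 - ee φ x.2.1, 6 * gn φ + 1 - (6 * x.2.1 + 2 + 2 * x.2.2 - ee φ x.2.1))
def ix (φ : F) (p : ℕ × ℕ) : ℕ := (6 * gn φ + 2) * p.1 + p.2
def ids (φ : F) : List Id :=
  (range 3 ×ˢ range (gn φ + 3 * φ.length) ×ˢ range (6 * gn φ + 3)).filter fun x => decide (ok φ x)
def red (φ : F) : List (List Bool) × List (ℕ × ℕ) × List (List Bool) :=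
  (grid (6 * gn φ + 2), (ids φ).map fun x => (ix φ (tm φ x).1, ix φ (tm φ x).2),
    mat (ids φ) fun x y => decide (fr φ x y))

lemma red_pt : PT red := by
  have b0 : PT gn := by unfold gn; fun_prop
  have b1 : PT ids := PT.filter (PP.decide (by unfold ok; fun_prop)) (by fun_prop)
  have b2 : PT fun z : F × ℕ => ee z.1 z.2 := PP.ite (by fun_prop) (by fun_prop) (by fun_prop)
  have b3 : PT fun z : F × Id => tm z.1 z.2 :=
    PP.ite (by fun_prop) (by fun_prop) (PP.ite (by fun_prop) (by fun_prop) (by fun_prop))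
  refine PT.pair (PT.mat (by fun_prop) (PP.decide ?_)) (PT.pair ?_ (PT.mat b1 (PP.decide ?_)))
  · unfold st; fun_prop
  · unfold ix; fun_prop
  · unfold fr fd tc; fun_prop

variable {φ : F}

lemma mem_ids {x : Id} : x ∈ ids φ ↔ ok φ x := by
  obtain ⟨a, b, c⟩ := x
  simp only [ids, mem_filter, mem_product, mem_range, decide_eq_true_eq, and_iff_right_iff_imp, ok]
  omega

lemma bw {P : Id → List (ℕ × ℕ)} (h1 : ∀ x, ok φ x → IsChain st (P x) ∧ (P x).head? = some (tm φ x).1 ∧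
    (P x).getLast? = some (tm φ x).2) (h2 : ∀ x y, ok φ x → ok φ y → fd φ x y → (P x).Disjoint (P y)) :
    Sat3 φ := by
  obtain ⟨V, hV⟩ : ∃ V : Id → ℕ → Prop, ∀ x t, V x t ↔ (t, 6 * gn φ + 1 - t) ∈ P x := ⟨_, fun _ _ => .rfl⟩
  have cr : ∀ x, ok φ x → ∃ t, V x t ∧ (tm φ x).1.1 ≤ t ∧ t ≤ (tm φ x).2.1 := fun x o => by
    obtain ⟨a, b, c⟩ := h1 x o
    have : ee φ x.2.1 ≤ 1 := by unfold ee; split_ifs <;> simp
    obtain ⟨⟨t, u⟩, p, q, r⟩ := (cross a b c).2.2 (6 * gn φ + 1) (by unfold tm ok at *; split_ifs <;> dsimp only <;> omega)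
      (by unfold tm ok at *; split_ifs <;> dsimp only <;> omega)
    exact ⟨t, (hV _ _).2 (by rwa [show 6 * gn φ + 1 - t = u by omega]), r⟩
  have dj : ∀ x y t, ok φ x → ok φ y → fd φ x y → V x t → ¬ V y t := fun x y t a b c d e =>
    h2 x y a b c ((hV _ _).1 d) ((hV _ _).1 e)
  have sq : ∀ o < 3 * φ.length, ∀ k < 6 * gn φ + 1, V (0, o, k) k ∨ V (0, o, k) (k + 1) := fun o p k q => by
    obtain ⟨t, a, b⟩ := cr (0, o, k) (by simp [ok, *])
    obtain rfl | rfl : t = k ∨ t = k + 1 := by simp [tm] at b; omega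
    exacts [Or.inl a, Or.inr a]
  have mo : ∀ o < 3 * φ.length, ∀ k, V (0, o, k) (k + 1) → ∀ l, k ≤ l → l < 6 * gn φ + 1 →
      V (0, o, l) (l + 1) := fun o p k q l r => by
    induction l, r using Nat.le_induction with
    | base => exact fun _ => q
    | succ l _ ih =>
      exact fun s => (sq o p _ s).resolve_left (dj (0, o, l) _ _ (by simp [ok, p]; omega) (by simp [ok, p]; omega)
        (by simp [fd]) (ih (by omega)))
  have gd : ∀ g < gn φ, ∃ i < 3, V (1, g, 0) (6 * g + 1 + 2 * i + ee φ g) := fun g l => by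
    obtain ⟨t, a, b⟩ := cr (1, g, 0) (by simp [ok, l])
    have e : ee φ g ≤ 1 := by unfold ee; split_ifs <;> simp
    have q : ∀ i < 3, t ≠ 6 * g + 2 + 2 * i - ee φ g := fun i p q => by
      obtain ⟨u, c, d⟩ := cr (2, g, i) (by simp [ok, *])
      obtain rfl : u = t := by simp [tm] at d; omega
      exact dj _ _ _ (by simp [ok, l]) (by simp [ok, l, p]) (by simp [fd]) a c
    have := q 0; have := q 1; have := q 2
    simp [tm] at b
    exact ⟨(t - 6 * g - 1) / 2, by omega, by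
      rwa [show 6 * g + 1 + 2 * ((t - 6 * g - 1) / 2) + ee φ g = t by omega]⟩
  have g0 : φ.length ≤ gn φ := by simp [gn]
  have : ∀ c < φ.length, ∃ o, o / 3 = c ∧ ∀ l, 6 * φ.length ≤ l → l < 6 * gn φ + 1 → V (0, o, l) (l + 1) :=
    fun c p => by
      obtain ⟨i, a, b⟩ := gd c (by omega)
      rw [ee, if_pos p] at b
      refine ⟨3 * c + i, by omega, fun l r => mo _ (by omega) (6 * c + 1 + 2 * i + 1) ?_ l (by omega)⟩
      exact (sq _ (by omega) _ (by omega)).resolve_left (dj _ _ _ (by simp [ok]; omega) (by simp [ok]; omega)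
        (by simp only [fd, tc]; simp [p]; omega) b)
  choose! o o1 o2 using this
  refine sat_of o1 fun c p d q e => ?_
  have l : φ.length + (3 * φ.length * o c + o d) < gn φ := by
    have := Nat.mul_le_mul_left (3 * φ.length) e.1
    have := e.2.1
    unfold gn; rw [Nat.mul_succ] at *; omega
  obtain ⟨i, a, b⟩ := gd _ l
  generalize hg : φ.length + (3 * φ.length * o c + o d) = g at *
  have e1 : (g - φ.length) / (3 * φ.length) = o c := by
    rw [← hg, Nat.add_sub_cancel_left, Nat.mul_add_div (by omega), Nat.div_eq_of_lt e.2.1]; rfl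
  have e2 : (g - φ.length) % (3 * φ.length) = o d := by
    rw [← hg, Nat.add_sub_cancel_left, Nat.mul_add_mod, Nat.mod_eq_of_lt e.2.1]
  have g1 : φ.length ≤ g := by omega
  rw [ee, if_neg (by omega), show 6 * g + 1 + 2 * i + 0 = 6 * g + 2 * i + 1 by omega] at b
  by_cases z : i = 0
  · exact dj _ _ _ (by simp [ok, l]) (by simp [ok, e.1]; omega) (by simp [fd, tc, *]) b
      (o2 c p _ (by omega) (by omega))
  · exact dj _ _ _ (by simp [ok, l]) (by simp [ok, e.2.1]; omega)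
      (by simp only [fd, tc, e1, e2]; simp [e, g1]; omega) b (o2 d q _ (by omega) (by omega))

def dx (e i j : ℕ) : ℕ :=
  if e = 1 then (if j ≤ 5 then j - (4 - 2 * i) else 2 * i + 1 + (j - (2 * i + 6))) else
    if j ≤ 5 then min j (2 * i) else 2 * i + min (j - 5) (5 - 2 * i)

lemma tb : ∀ e < 2, ∀ i < 3, dx e i 0 = 0 ∧ dx e i 10 = 5 ∧ dx e i 4 = 2 * i ∧ dx e i 5 = 2 * i + e ∧
    dx e i 6 = 2 * i + 1 ∧ (∀ j < 11, dx e i j ≤ 5 ∧ dx e i j ≤ j ∧ j ≤ dx e i j + 5) ∧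
    ∀ j < 10, dx e i (j + 1) = dx e i j ∨ dx e i (j + 1) = dx e i j + 1 := by decide

lemma fw (h : Sat3 φ) : ∃ P : Id → List (ℕ × ℕ), (∀ x, ok φ x → IsChain st (P x) ∧
    (P x).head? = some (tm φ x).1 ∧ (P x).getLast? = some (tm φ x).2 ∧
    ∀ v ∈ P x, v.1 < 6 * gn φ + 2 ∧ v.2 < 6 * gn φ + 2) ∧
    ∀ x y, ok φ x → ok φ y → fd φ x y → (P x).Disjoint (P y) := by
  classical
  obtain ⟨o, o1, o2⟩ := of_sat h
  obtain ⟨L, hL⟩ : ∃ L : ℕ → ℕ → ℕ, ∀ a k, L a k =
    if a = o (a / 3) ∧ 6 * (a / 3) + 2 * (a % 3) + 2 ≤ k then k + 1 else k := ⟨_, fun _ _ => rfl⟩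
  have : ∀ g, ∃ i < 3, ∀ a k, tc φ g a k → L a k ≠ 6 * g + 1 + 2 * i + ee φ g := fun g => by
    by_cases p : g < φ.length
    · refine ⟨o g % 3, by omega, fun a k t => ?_⟩
      have := o1 g
      obtain ⟨rfl, rfl⟩ : a / 3 = g ∧ k = 6 * g + 2 * (a % 3) + 2 := by unfold tc at t; omega
      rw [hL, ee, if_pos p]; split_ifs <;> omega
    · generalize ha : (g - φ.length) / (3 * φ.length) = b
      generalize hb : (g - φ.length) % (3 * φ.length) = c
      have := o2 (b / 3) (c / 3)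
      refine ⟨if b = o (b / 3) then 1 else 0, by split_ifs <;> simp, fun a k t => ?_⟩
      simp only [tc, ha, hb, p, false_and, false_or] at t
      rw [hL, ee, if_neg p]
      obtain ⟨-, t, ⟨rfl, rfl⟩ | ⟨rfl, u⟩⟩ := t
      · split_ifs <;> omega
      · have : ¬ (b = o (b / 3) ∧ a = o (a / 3)) := fun e => this (by rwa [← e.1, ← e.2])
        split_ifs <;> omega
  choose I I1 I2 using this
  have e2 : ∀ g, ee φ g < 2 := fun g => by unfold ee; split_ifs <;> simp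
  have l1 : ∀ a k, L a k = k ∨ L a k = k + 1 := fun a k => by rw [hL]; split_ifs <;> simp
  refine ⟨fun x => if x.1 = 0 then [(tm φ x).1, (L x.2.1 x.2.2, 6 * gn φ + 1 - L x.2.1 x.2.2), (tm φ x).2] else
    if x.1 = 1 then (range 11).map fun j => (6 * x.2.1 + 1 + dx (ee φ x.2.1) (I x.2.1) j,
      6 * gn φ - 6 * x.2.1 - 5 + j - dx (ee φ x.2.1) (I x.2.1) j) else [(tm φ x).1], ?_, ?_⟩
  · rintro ⟨t, a, k⟩ x
    simp only [ok] at x
    rcases x with ⟨rfl, p, q⟩ | ⟨rfl, p, rfl⟩ | ⟨rfl, p, q⟩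
    · have := l1 a k
      simp [tm, st]; omega
    · obtain ⟨b0, b1, -, -, -, b2, b3⟩ := tb _ (e2 a) _ (I1 a)
      refine ⟨?_, by simp [tm, b0, range_succ_eq_map], by simp [tm, b1, range_succ]; omega, ?_⟩
      · simp only [one_ne_zero, if_false, if_true, isChain_map]
        refine (isChain_range_succ _ _).2 fun j h => ?_
        have := b2 j (by omega)
        have := b3 j h
        simp only [st, Nat.succ_eq_add_one]; omega
      · simp only [one_ne_zero, if_false, if_true, forall_mem_map, mem_range]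
        intro j h
        have := b2 j h
        omega
    · have := e2 a
      simp [tm]; omega
  · rintro ⟨t, a, k⟩ ⟨s, b, l⟩ x y e
    simp only [ok, fd] at x y e
    rcases e with ⟨rfl, rfl, rfl, rfl⟩ | ⟨rfl, rfl, rfl⟩ | ⟨rfl, rfl, e⟩
    · have := hL a k
      have := hL a (k + 1)
      simp [tm]; grind
    · obtain ⟨-, -, -, b1, -, b2, -⟩ := tb _ (e2 a) _ (I1 a)
      have := e2 a
      simp only [one_ne_zero, if_false, if_true, disjoint_left, forall_mem_map, mem_range, tm]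
      intro j h
      have := b2 j h
      have : j = 5 → dx (ee φ a) (I a) j = 2 * I a + ee φ a := fun e => e ▸ b1
      simp; omega
    · obtain ⟨-, -, b0, b1, b3, b2, -⟩ := tb _ (e2 a) _ (I1 a)
      have := I2 a b l e
      have := l1 b l
      have : l % 2 = 0 := by unfold tc at e; omega
      simp only [one_ne_zero, if_false, if_true, disjoint_left, forall_mem_map, mem_range, tm]
      intro j h
      have := b2 j h
      have : j = 4 → dx (ee φ a) (I a) j = 2 * I a := fun e => e ▸ b0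
      have : j = 5 → dx (ee φ a) (I a) j = 2 * I a + ee φ a := fun e => e ▸ b1
      have : j = 6 → dx (ee φ a) (I a) j = 2 * I a + 1 := fun e => e ▸ b3
      simp; omega

def nb (φ : F) (x : Id) : List Id :=
  if x.1 = 0 then [(0, x.2.1, x.2.2 + 1), (0, x.2.1, x.2.2 - 1), (1, x.2.2 / 6, 0), (1, (x.2.2 - 1) / 6, 0)]
  else if x.1 = 2 then [(1, x.2.1, 0)] else [(2, x.2.1, 0), (2, x.2.1, 1), (2, x.2.1, 2)] ++
    if x.2.1 < φ.length then [(0, 3 * x.2.1, 6 * x.2.1 + 2), (0, 3 * x.2.1 + 1, 6 * x.2.1 + 4),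
      (0, 3 * x.2.1 + 2, 6 * x.2.1 + 6)] else [(0, (x.2.1 - φ.length) / (3 * φ.length), 6 * x.2.1),
      (0, (x.2.1 - φ.length) % (3 * φ.length), 6 * x.2.1 + 2),
      (0, (x.2.1 - φ.length) % (3 * φ.length), 6 * x.2.1 + 4)]

lemma nb1 {x y : Id} (a : ok φ x) (b : ok φ y) (h : fr φ x y) : y ∈ nb φ x := by
  obtain ⟨t, c, k⟩ := x
  obtain ⟨s, d, l⟩ := y
  simp only [ok, fr, fd] at a b h
  rcases h with (⟨rfl, rfl, rfl, rfl⟩ | ⟨rfl, rfl, rfl⟩ | ⟨rfl, rfl, e⟩) |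
    ⟨rfl, rfl, rfl, rfl⟩ | ⟨rfl, rfl, rfl⟩ | ⟨rfl, rfl, e⟩
  · simp [nb]
  · obtain rfl | rfl | rfl : l = 0 ∨ l = 1 ∨ l = 2 := by omega
    all_goals simp [nb]
  · rcases e with ⟨p, rfl, rfl⟩ | ⟨p, -, ⟨rfl, rfl⟩ | ⟨rfl, rfl | rfl⟩⟩
    · simp [nb, p]; omega
    all_goals simp [nb, p.not_gt]
  · simp [nb]
  · obtain rfl : l = 0 := by omega
    simp [nb]
  · obtain rfl : l = 0 := by omega
    have : d = k / 6 ∨ d = (k - 1) / 6 := by unfold tc at e; omega
    simpa [nb] using this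

theorem result : NPHard (Lang (PDP 6)) := by
  classical
  refine (hard_sat3.red red_pt fun φ => ?_).npHard
  obtain ⟨h0, f, h1, h2, h3, h4⟩ := graph_kit (ids φ) (fr φ) (fun p q h => h.symm)
    (fun p h => by simp only [fr, fd] at h; omega)
    ((nodup_range.product (nodup_range.product nodup_range)).filter _) (M := (red φ).2.2) rfl
  simp only [mem_ids] at h2
  have hf : ∀ a, ok φ (f a) := fun a => (h2 _).1 ⟨a, rfl⟩
  have co : ∀ p : ℕ × ℕ, p.2 < 6 * gn φ + 2 → (ix φ p / (6 * gn φ + 2), ix φ p % (6 * gn φ + 2)) = p :=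
    fun p h => by simp [ix, Nat.mul_add_div, Nat.div_eq_of_lt h, Nat.mod_eq_of_lt h]
  have lt : ∀ p : ℕ × ℕ, p.1 < 6 * gn φ + 2 → p.2 < 6 * gn φ + 2 →
      ix φ p < (6 * gn φ + 2) * (6 * gn φ + 2) := fun p a b => by
    have := Nat.mul_le_mul_left (6 * gn φ + 2) a
    unfold ix; rw [Nat.mul_succ] at this; omega
  have tl : ∀ x, ok φ x → (tm φ x).1.1 < 6 * gn φ + 2 ∧ (tm φ x).1.2 < 6 * gn φ + 2 ∧
      (tm φ x).2.1 < 6 * gn φ + 2 ∧ (tm φ x).2.2 < 6 * gn φ + 2 := fun x o => by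
    unfold tm ok at *; split_ifs <;> dsimp only <;> omega
  constructor
  · intro h
    obtain ⟨P, p1, p2⟩ := fw h
    refine ⟨(planar _).1, (planar _).2, ?_, h0, by simp [red], fun i => ?_,
      fun i => (P ((ids φ).getD i (0, 0, 0))).map (ix φ), fun i t e => ?_, fun i j e => ?_⟩
    · simp only [red, forall_mem_map, mem_ids, grid, mat_length, length_range]
      exact fun x o => ⟨lt _ (tl x o).1 (tl x o).2.1, lt _ (tl x o).2.2.1 (tl x o).2.2.2⟩
    · refine (Set.ncard_le_ncard_of_injOn (t := (nb φ (f i)).toFinset) f (fun a e => ?_) h3.injOn).trans ?_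
      · simpa using nb1 (hf i) (hf a) ((h1 _ _).1 e)
      · rw [Set.ncard_coe_finset]
        refine (toFinset_card_le _).trans ?_
        unfold nb; split_ifs <;> simp
    · simp only [red, getElem?_map, Option.mem_def, Option.map_eq_some_iff] at e
      obtain ⟨x, e, rfl⟩ := e
      obtain ⟨a, b, c, d⟩ := p1 x (mem_ids.1 (mem_of_getElem? e))
      simp only [getD_eq_getElem?_getD, e, Option.getD_some]
      refine ⟨?_, by simp [b], by simp [c], isChain_map _ |>.2 (a.imp_of_mem_imp fun u v p q r => ?_)⟩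
      · refine (isChain_iff_pairwise.1 (isChain_map _ |>.2 (a.imp fun u v r => ?_) :
          List.IsChain (· < ·) (map (ix φ) (P x)))).imp ne_of_lt
        rcases r with ⟨r, s⟩ | ⟨r, s⟩ <;> simp [ix, r, s]
      · exact ent_grid.2 ⟨lt _ (d u p).1 (d u p).2, lt _ (d v q).1 (d v q).2, by
          rwa [co _ (d u p).2, co _ (d v q).2]⟩
    · obtain ⟨a, b, e⟩ := (mat_get _ _ _ _).1 e
      have x := mem_ids.1 (getElem_mem a)
      have y := mem_ids.1 (getElem_mem b)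
      simp only [getD_eq_getElem _ _ a, getD_eq_getElem _ _ b]
      intro w p q
      obtain ⟨u, p', rfl⟩ := mem_map.1 p
      obtain ⟨v, q', r⟩ := mem_map.1 q
      obtain rfl : v = u := by rw [← co v ((p1 _ y).2.2.2 v q').2, r, co u ((p1 _ x).2.2.2 u p').2]
      exact (of_decide_eq_true e).elim (fun e => p2 _ _ x y e p' q') fun e => p2 _ _ y x e q' p'
  · rintro ⟨-, -, -, -, -, -, P, p1, p2⟩
    refine bw (P := fun x => if e : ∃ a, f a = x then
      (P e.choose).map fun a => (a / (6 * gn φ + 2), a % (6 * gn φ + 2)) else []) (fun x o => ?_)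
      fun x y p q e => ?_
    · obtain ⟨a, rfl⟩ := (h2 x).2 o
      obtain ⟨-, b, c, d⟩ := p1 a (ix φ (tm φ (f a)).1, ix φ (tm φ (f a)).2) (by simp [red, h4 a])
      simp only [h3.eq_iff, exists_eq, dif_pos, Exists.choose, Classical.choose_eq]
      exact ⟨isChain_map _ |>.2 (d.imp fun u v r => (ent_grid.1 r).2.2), by simp [b, co _ (tl _ o).2.1],
        by simp [c, co _ (tl _ o).2.2.2]⟩
    · obtain ⟨a, rfl⟩ := (h2 x).2 p
      obtain ⟨b, rfl⟩ := (h2 y).2 q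
      simp only [h3.eq_iff, exists_eq, dif_pos, Exists.choose, Classical.choose_eq]
      intro w r s
      obtain ⟨u, r', rfl⟩ := mem_map.1 r
      obtain ⟨v, s', t⟩ := mem_map.1 s
      obtain rfl : v = u := by
        simp only [Prod.mk.injEq] at t
        rw [← Nat.div_add_mod v (6 * gn φ + 2), t.1, t.2, Nat.div_add_mod]
      exact p2 a b ((Cis.adj_iff h0 _ _).1 ((h1 a b).2 (Or.inl e))) r' s'

end Pool.Agent.Results.MP_f73e8c_lc.NPHard
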